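import Pool.Agent.Q38.GE.Stm

/-! Job GE-AX (project GE of helper38): surjectivity on tuples of matrices by Ax-Grothendieck. -/

set_option autoImplicit false

namespace Q295.GE_AX

open Q38.GE Matrix

/-- the tuple of matrices with given entries -/
def tup {n r : ℕ} {R : Type} (v : Fin n × Fin r × Fin r → R) : Fin n → Matrix (Fin r) (Fin r) R :=
  fun i => Matrix.of fun a b => v (i, a, b)

theorem ev_map {K : Type} [Field K] {n r : ℕ} {L : Type} [Field L] [Algebra K L]
    (v : Fin n × Fin r × Fin r → L) (c : A K n) (a b : Fin r) :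
    MvPolynomial.eval v ((ev (K := K) (tup fun s => (MvPolynomial.X s :
      MvPolynomial (Fin n × Fin r × Fin r) L)) c) a b) = (ev (K := K) (tup v) c) a b := by
  let f : MvPolynomial (Fin n × Fin r × Fin r) L →ₐ[K] L :=
    (MvPolynomial.aeval v : MvPolynomial (Fin n × Fin r × Fin r) L →ₐ[L] L).restrictScalars K
  have h1 : (f.mapMatrix).comp (ev (K := K) (tup fun s => (MvPolynomial.X s :
      MvPolynomial (Fin n × Fin r × Fin r) L))) = ev (K := K) (tup v) := by
    apply FreeAlgebra.hom_ext
    funext i
    ext a b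
    simp [ev, tup, f]
  have h2 := DFunLike.congr_fun h1 c
  have h3 := congrFun (congrFun h2 a) b
  rw [← h3]
  simp [f, MvPolynomial.aeval_eq_eval]

theorem ax (h : S_INJ) : S_AX := by
  intro K _ n φ hJ L _ _ _ r T
  have hsurj := ax_grothendieck_univ (K := L) (ι := Fin n × Fin r × Fin r)
    (fun s => (ev (K := K) (tup fun s => (MvPolynomial.X s :
      MvPolynomial (Fin n × Fin r × Fin r) L)) (φ (x K s.1))) s.2.1 s.2.2) ?_
  · obtain ⟨v, hv⟩ := hsurj (fun s => T s.1 s.2.1 s.2.2)
    refine ⟨tup v, ?_⟩
    intro i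
    ext a b
    have h1 := congrFun hv (i, a, b)
    simp only at h1
    rw [ev_map] at h1
    exact h1
  · intro v w hvw
    have h1 : tup v = tup w := by
      apply h K n φ hJ L r
      intro i
      ext a b
      have h2 := congrFun hvw (i, a, b)
      simp only at h2
      rw [ev_map, ev_map] at h2
      exact h2
    funext s
    obtain ⟨i, a, b⟩ := s
    exact congrFun (congrFun (congrFun h1 i) a) b

end Q295.GE_AX
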